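import Pool.Agent.H13.L.S8.TH25.AD.A7

/-!
Classes of groups; subset sums of geometric series; all real numbers are values.
-/

set_option autoImplicit false
set_option linter.unusedSectionVars false

open scoped InnerProductSpace ENNReal ComplexConjugate
open Filter Topology

namespace Pool.Agent.TH25.AD

open Pool.Agent.W656.VA
open Pool.Agent.H80R2
open Pool.Agent.H80R2.BC (L2 GMat vdim IsTr LInv Equi act kerA pt vals Coef)
open Pool.Agent.H812R3

/-! ### greedy expansions -/

/-- remainders of the greedy expansion -/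
noncomputable def rem (α t : ℝ) : ℕ → ℝ
  | 0 => t
  | n + 1 => (rem α t n - (if 1 ≤ rem α t n then 1 else 0)) / α

theorem rem_bounds {α t : ℝ} (h1 : 1 / 2 ≤ α) (h2 : α < 1) (h0 : 0 ≤ t) (ht : t ≤ 1 / (1 - α))
    (n : ℕ) : 0 ≤ rem α t n ∧ rem α t n ≤ 1 / (1 - α) := by
  have hα : 0 < α := by linarith
  have h3 : 0 < 1 - α := by linarith
  induction n with
  | zero => exact ⟨h0, ht⟩
  | succ n ih =>
    obtain ⟨i1, i2⟩ := ih
    rw [rem]
    split_ifs with h
    · constructor
      · exact div_nonneg (by linarith) hα.le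
      · rw [div_le_iff₀ hα]
        have : 1 / (1 - α) * α = 1 / (1 - α) - 1 := by
          field_simp
          ring
        rw [this]
        linarith
    · push Not at h
      rw [sub_zero]
      constructor
      · exact div_nonneg i1 hα.le
      · rw [div_le_div_iff₀ hα h3]
        nlinarith

theorem rem_sum {α t : ℝ} (hα : 0 < α) (N : ℕ) :
    t = ∑ n ∈ Finset.range N, (if 1 ≤ rem α t n then α ^ n else 0) + α ^ N * rem α t N := by
  induction N with
  | zero => simp [rem]
  | succ N ih =>
    rw [Finset.sum_range_succ, rem]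
    have e : α ^ (N + 1) * ((rem α t N - (if 1 ≤ rem α t N then 1 else 0)) / α)
        = α ^ N * rem α t N - (if 1 ≤ rem α t N then α ^ N else 0) := by
      rw [pow_succ]
      split_ifs <;> field_simp
      ring
    rw [e]
    linarith

theorem greedy {α t : ℝ} (h1 : 1 / 2 ≤ α) (h2 : α < 1) (h0 : 0 ≤ t) (ht : t ≤ 1 / (1 - α)) :
    HasSum (fun n : ℕ => if 1 ≤ rem α t n then α ^ n else 0) t := by
  have hα : 0 < α := by linarith
  rw [hasSum_iff_tendsto_nat_of_nonneg]
  · have e : (fun N => ∑ n ∈ Finset.range N, (if 1 ≤ rem α t n then α ^ n else 0))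
        = fun N => t - α ^ N * rem α t N := by
      funext N
      have := rem_sum (t := t) hα N
      linarith
    rw [e]
    have h3 : Tendsto (fun N => α ^ N * rem α t N) atTop (𝓝 0) := by
      refine squeeze_zero (fun N => mul_nonneg (pow_nonneg hα.le _)
        (rem_bounds h1 h2 h0 ht N).1) (fun N => mul_le_mul_of_nonneg_left
        (rem_bounds h1 h2 h0 ht N).2 (pow_nonneg hα.le _)) ?_
      have := (tendsto_pow_atTop_nhds_zero_of_lt_one hα.le h2).mul_const (1 / (1 - α))
      rwa [zero_mul] at this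
    have := (tendsto_const_nhds (x := t)).sub h3
    rwa [sub_zero] at this
  · intro n
    split_ifs
    · exact pow_nonneg hα.le _
    · exact le_rfl

/-! ### classes of groups -/

/-- A class of torsion-free groups which is closed under subgroups, direct products, semidirect
products with `ℤ` and free products with free groups of finite rank. -/
structure Cls (C : (G : Type) → [Group G] → Prop) : Prop where
  tf : ∀ (G : Type) [Group G], C G → ∀ g : G, ∀ n : ℕ, 0 < n → g ^ n = 1 → g = 1
  sub : ∀ (G H : Type) [Group G] [Group H] (f : G →* H), Function.Injective f → C H → C G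
  pi : ∀ (I : Type) (G : I → Type) [∀ i, Group (G i)], (∀ i, C (G i)) → C (∀ i, G i)
  sd : ∀ (G : Type) [Group G] (s : MulAut G), C G →
    C (G ⋊[zpowersHom (MulAut G) s] Multiplicative ℤ)
  free : ∀ (G : Type) [Group G] (m : ℕ), C G → C (Monoid.Coprod G (FreeGroup (Fin m)))

/-- two groups as a family -/
def BF (G H : Type) : Bool → Type := fun b => cond b G H

/-- the group structures -/
instance BF.group (G H : Type) [iG : Group G] [iH : Group H] : ∀ b, Group (BF G H b)
  | true => iG
  | false => iH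

/-- a pair as a function -/
def BF.mk {G H : Type} (p : G × H) : ∀ b, BF G H b
  | true => p.1
  | false => p.2

namespace Cls

variable {C : (G : Type) → [Group G] → Prop}

theorem prod (hC : Cls C) (G H : Type) [Group G] [Group H] (hG : C G) (hH : C H) :
    C (G × H) := by
  have h1 : C (∀ b, BF G H b) := hC.pi Bool (BF G H) (fun b => by
    cases b
    · exact hH
    · exact hG)
  refine hC.sub (G × H) (∀ b, BF G H b)
    { toFun := BF.mk
      map_one' := ?_
      map_mul' := ?_ } ?_ h1
  · funext b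
    cases b <;> rfl
  · intro x y
    funext b
    cases b <;> rfl
  · intro x y h
    have e1 := congrFun h true
    have e2 := congrFun h false
    exact Prod.ext e1 e2

theorem int (hC : Cls C) {G : Type} [Group G] (hG : C G) : C (Multiplicative ℤ) := by
  have h1 := hC.sd G 1 hG
  exact hC.sub _ _ SemidirectProduct.inr SemidirectProduct.inr_injective h1

end Cls

/-- the shift of functions on `ℤ` -/
def shAut (L : Type) [Group L] : MulAut (ℤ → L) where
  toFun k := fun i => k (i - 1)
  invFun k := fun i => k (i + 1)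
  left_inv k := by funext i; simp
  right_inv k := by funext i; simp
  map_mul' _ _ := rfl

theorem shAut_zpow (L : Type) [Group L] (n : ℤ) (k : ℤ → L) (i : ℤ) :
    ((shAut L) ^ n) k i = k (i - n) := by
  induction n using Int.induction_on generalizing i with
  | zero => simp
  | succ n ih =>
    rw [add_comm, zpow_one_add, MulAut.mul_apply]
    show ((shAut L) ^ (n : ℤ)) k (i - 1) = _
    rw [ih]
    congr 1
    ring
  | pred n ih =>
    rw [sub_eq_add_neg, add_comm, zpow_add, zpow_neg_one, MulAut.mul_apply]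
    have e : ∀ y : ℤ → L, ((shAut L)⁻¹) y i = y (i + 1) := fun y => rfl
    rw [e, ih]
    congr 1
    ring

namespace Cls

variable {C : (G : Type) → [Group G] → Prop}

theorem wr (hC : Cls C) {L : Type} [Group L] (hL : C L) : C (Wr L) := by
  have h1 : C (ℤ → L) := hC.pi ℤ (fun _ => L) (fun _ => hL)
  have h2 := hC.sd (ℤ → L) (shAut L) h1
  refine hC.sub _ _
    { toFun := fun a : Wr L => (⟨a.k, Multiplicative.ofAdd a.n⟩ :
        (ℤ → L) ⋊[zpowersHom (MulAut (ℤ → L)) (shAut L)] Multiplicative ℤ)
      map_one' := ?_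
      map_mul' := ?_ } ?_ h2
  · rfl
  · intro a b
    apply SemidirectProduct.ext
    · funext i
      rw [SemidirectProduct.mul_left]
      show a.k i * b.k (i - a.n) = (a.k * (zpowersHom (MulAut (ℤ → L)) (shAut L)
        (Multiplicative.ofAdd a.n)) b.k) i
      rw [Pi.mul_apply, zpowersHom_apply, toAdd_ofAdd, shAut_zpow]
    · rfl
  · intro a b h
    have e1 := congrArg SemidirectProduct.left h
    have e2 := congrArg SemidirectProduct.right h
    exact Wr.ext e1 (Multiplicative.ofAdd.injective e2)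

theorem hg (hC : Cls C) {G : Type} [Group G] (hG : C G) : C (Hg G) :=
  hC.wr (hC.prod G _ hG (hC.wr (hC.int hG)))

end Cls

/-- `w` is the dimension of the kernel of a matrix over `R[H]` for some `H` in the class -/
def VV (C : (G : Type) → [Group G] → Prop) (R : Subring ℂ) (w : ℝ) : Prop :=
  ∃ (H : Type) (_ : Group H), C H ∧ Val R H w

section

variable {C : (G : Type) → [Group G] → Prop} {R : Subring ℂ}

theorem VV.nonneg {w : ℝ} (h : VV C R w) : 0 ≤ w := by
  obtain ⟨H, _, _, h⟩ := h
  exact val_nonneg h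

theorem VV.nsmul {w : ℝ} (h : VV C R w) (n : ℕ) : VV C R (n * w) := by
  obtain ⟨H, _, hH, h⟩ := h
  exact ⟨H, inferInstance, hH, val_nsmul h n⟩

theorem VV.mul (hC : Cls C) {v w : ℝ} (h : VV C R v) (h' : VV C R w) : VV C R (v * w) := by
  obtain ⟨H, _, hH, h⟩ := h
  obtain ⟨H', _, hH', h'⟩ := h'
  exact ⟨H × H', inferInstance, hC.prod H H' hH hH', val_mul h h'⟩

theorem VV.pow (hC : Cls C) {v : ℝ} (h : VV C R v) (n : ℕ) : VV C R (v ^ (n + 1)) := by
  induction n with
  | zero => simpa using h
  | succ n ih =>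
    rw [pow_succ]
    exact ih.mul hC h

/-- an interval of values -/
theorem VV.interval (hC : Cls C) (hR : ∀ c ∈ R, conj c ∈ R) {α : ℝ} (h : VV C R α)
    (h1 : 1 / 2 ≤ α) (h2 : α < 1) : ∃ d : ℝ, 0 ≤ d ∧ ∀ r : ℝ, 0 ≤ r → r ≤ 1 - α →
      VV C R (r + d) := by
  classical
  obtain ⟨G, _, hG, hv⟩ := h
  obtain ⟨m, ι, κ, _, _, A, T, hA, hT, hAT, hvA⟩ := lamp_exists hv h2
  have hG' := hC.free G m hG
  have htf : TF (Monoid.Coprod G (FreeGroup (Fin m))) := hC.tf _ hG'
  have key : ∀ r : ℝ, 0 ≤ r → r ≤ 1 - α →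
      VV C R (r + 4 * (Fintype.card κ - Fintype.card ι + vdim (kerA A))) := by
    intro r hr0 hr1
    have h3 : 0 < 1 - α := by linarith
    have h4 : (1 - α) ^ 2 ≠ 0 := by positivity
    have h5 := greedy h1 h2 (t := r / (1 - α) ^ 2) (by positivity) (by
      rw [div_le_div_iff₀ (by positivity) h3]
      nlinarith)
    set S : Set ℕ := {n | 1 ≤ rem α (r / (1 - α) ^ 2) n} with hS
    obtain ⟨w, hw, hval⟩ := value hR htf A T hA hT hAT (by rw [hvA]; exact h2) S
    have h6 : HasSum (fun n : ℕ => if n ∈ S then (1 - vdim (kerA A)) ^ 2 * vdim (kerA A) ^ n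
        else 0) r := by
      have h7 := h5.mul_left ((1 - α) ^ 2)
      have e1 : (1 - α) ^ 2 * (r / (1 - α) ^ 2) = r := by field_simp
      rw [e1] at h7
      have e3 : (fun n : ℕ => if n ∈ S then (1 - α) ^ 2 * α ^ n else 0)
          = fun n : ℕ => (1 - α) ^ 2 * (if 1 ≤ rem α (r / (1 - α) ^ 2) n then α ^ n else 0) := by
        funext n
        by_cases hn : 1 ≤ rem α (r / (1 - α) ^ 2) n
        · rw [if_pos hn, if_pos (show n ∈ S from hn)]
        · rw [if_neg hn, if_neg (show n ∉ S from hn), mul_zero]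
      rw [hvA, e3]
      exact h7
    rw [hw.unique h6] at hval
    exact ⟨_, inferInstance, hC.hg hG', hval⟩
  refine ⟨_, ?_, key⟩
  have := (key 0 le_rfl (by linarith)).nonneg
  linarith

/-- **All or nothing**, for values. -/
theorem VV.all (hC : Cls C) (hR : ∀ c ∈ R, conj c ∈ R) {ρ : ℝ} (h : VV C R ρ) (h0 : 0 < ρ)
    (h1 : ρ < 1) (r : ℝ) (hr : 0 ≤ r) : VV C R r := by
  rcases hr.eq_or_lt with rfl | hr
  · obtain ⟨G, _, hG, _⟩ := h
    exact ⟨G, inferInstance, hG, val_zero⟩
  -- small values
  have hsmall : ∀ ε : ℝ, 0 < ε → ∃ e : ℝ, 0 < e ∧ e < ε ∧ VV C R e := by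
    intro ε hε
    obtain ⟨n, hn⟩ := exists_pow_lt_of_lt_one hε h1
    refine ⟨ρ ^ (n + 1), pow_pos h0 _, ?_, h.pow hC n⟩
    refine lt_of_le_of_lt ?_ hn
    exact pow_le_pow_of_le_one h0.le h1.le (Nat.le_succ n)
  -- a value in `[1/2, 1)`
  obtain ⟨α, ha1, ha2, hα⟩ : ∃ α : ℝ, 1 / 2 ≤ α ∧ α < 1 ∧ VV C R α := by
    obtain ⟨e, he0, he1, he⟩ := hsmall (1 / 2) (by norm_num)
    refine ⟨(⌈1 / (2 * e)⌉₊ : ℝ) * e, ?_, ?_, he.nsmul _⟩
    · have h2 := Nat.le_ceil (1 / (2 * e))
      rw [div_le_iff₀ (by positivity)] at h2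
      linarith
    · have h2 := Nat.ceil_lt_add_one (a := 1 / (2 * e)) (by positivity)
      have h3 : (⌈1 / (2 * e)⌉₊ : ℝ) * e < (1 / (2 * e) + 1) * e :=
        mul_lt_mul_of_pos_right h2 he0
      have h4 : (1 / (2 * e) + 1) * e = 1 / 2 + e := by field_simp
      linarith
  obtain ⟨d, hd, hint⟩ := hα.interval hC hR ha1 ha2
  set δ := 1 - α with hδ
  have hδ0 : 0 < δ := by linarith
  have hdδ : 0 < d + δ := by linarith
  -- all large values
  have hlarge : ∀ t : ℝ, 0 < t → d * (d + δ) / δ ≤ t → VV C R t := by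
    intro t ht0 ht
    set n := ⌈t / (d + δ)⌉₊ with hn
    have hn0 : 0 < n := Nat.ceil_pos.2 (by positivity)
    have hn0' : (0 : ℝ) < n := by exact_mod_cast hn0
    have h3 : t / (d + δ) ≤ n := Nat.le_ceil _
    have h4 : (n : ℝ) < t / (d + δ) + 1 := Nat.ceil_lt_add_one (by positivity)
    have h5 : t / n ≤ d + δ := by
      rw [div_le_iff₀ hn0']
      rw [div_le_iff₀ hdδ] at h3
      linarith
    have h6 : d ≤ t / n := by
      rw [le_div_iff₀ hn0']
      have h7 : d * n ≤ d * (t / (d + δ) + 1) := mul_le_mul_of_nonneg_left h4.le hd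
      have h8 : d * (t / (d + δ) + 1) ≤ t := by
        rw [div_le_iff₀ hδ0] at ht
        have e : d * (t / (d + δ) + 1) = (d * t + d * (d + δ)) / (d + δ) := by field_simp
        rw [e, div_le_iff₀ hdδ]
        nlinarith
      linarith
    have h9 := (hint (t / n - d) (by linarith) (by linarith)).nsmul n
    have e : (n : ℝ) * (t / n - d + d) = t := by
      rw [sub_add_cancel]
      field_simp
    rwa [e] at h9
  -- all values
  set M := d * (d + δ) / δ + 1 with hM
  have hM0 : 0 < M := by positivity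
  obtain ⟨e, he0, he1, he⟩ := hsmall (r / M) (by positivity)
  have h10 : M ≤ r / e := by
    rw [le_div_iff₀ he0]
    rw [lt_div_iff₀ hM0] at he1
    linarith
  have h11 := he.mul hC (hlarge (r / e) (by positivity) (by linarith))
  have e2 : e * (r / e) = r := by field_simp
  rwa [e2] at h11

end

end Pool.Agent.TH25.AD
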