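import Pool.Agent.H13.L.S8.W656.VA9

/-!
Subspaces of `ℓ²(H)` which are affiliated with the von Neumann algebra of a subgroup: translates,
support, commutation and independence.
-/

set_option autoImplicit false
set_option linter.unusedSectionVars false

open scoped InnerProductSpace ENNReal
open Filter Topology

namespace Pool.Agent.TH25.AD

open Pool.Agent.W656.VA
open Pool.Agent.H80R2
open Pool.Agent.H80R2.BC (L2 GMat vdim IsTr LInv Equi act kerA Coef)
open Pool.Agent.H812R3

variable {H : Type} [Group H]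

/-- right translation: `(U h x) g = x (g * h)` -/
noncomputable def U (h : H) : L2 (Unit × H) →L[ℂ] L2 (Unit × H) := el () () h

theorem U_apply (h : H) (x : L2 (Unit × H)) (g : H) : U h x ((), g) = x ((), g * h) :=
  el_self () () h x g

theorem U_apply' (h : H) (x : L2 (Unit × H)) (p : Unit × H) : U h x p = x ((), p.2 * h) := by
  obtain ⟨⟨⟩, g⟩ := p
  exact U_apply h x g

theorem U_mul (a b : H) (x : L2 (Unit × H)) : U (a * b) x = U a (U b x) := by
  ext p
  rw [U_apply', U_apply', U_apply', mul_assoc]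

theorem U_one (x : L2 (Unit × H)) : U (1 : H) x = x := by
  ext ⟨⟨⟩, g⟩
  rw [U_apply, mul_one]

theorem U_inv_self (a : H) (x : L2 (Unit × H)) : U a⁻¹ (U a x) = x := by
  rw [← U_mul, inv_mul_cancel, U_one]

theorem U_self_inv (a : H) (x : L2 (Unit × H)) : U a (U a⁻¹ x) = x := by
  rw [← U_mul, mul_inv_cancel, U_one]

theorem inner_U (h : H) (x y : L2 (Unit × H)) : ⟪U h x, U h y⟫_ℂ = ⟪x, y⟫_ℂ := by
  rw [lp.inner_eq_tsum, lp.inner_eq_tsum]
  have e := ((Equiv.refl Unit).prodCongr (Equiv.mulRight h)).tsum_eq (fun p => ⟪x p, y p⟫_ℂ)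
  rw [← e]
  refine tsum_congr fun p => ?_
  rw [U_apply', U_apply']
  rfl

theorem inner_U_left (h : H) (x y : L2 (Unit × H)) : ⟪U h x, y⟫_ℂ = ⟪x, U h⁻¹ y⟫_ℂ := by
  rw [← inner_U h x (U h⁻¹ y), U_self_inv]

theorem inner_U_right (h : H) (x y : L2 (Unit × H)) : ⟪x, U h y⟫_ℂ = ⟪U h⁻¹ x, y⟫_ℂ := by
  rw [inner_U_left, inv_inv]

theorem equi_U (h : H) : Equi (U h) := by
  apply equi_of
  intro g x
  ext ⟨⟨⟩, k⟩
  rw [U_apply, lt_apply, lt_apply, U_apply, mul_assoc]

/-- `K` is affiliated with the von Neumann algebra generated by the `U d`, `d ∈ D` -/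
def Loc (D : Subgroup H) (K : Submodule ℂ (L2 (Unit × H))) : Prop :=
  ∀ X : L2 (Unit × H) →L[ℂ] L2 (Unit × H), (∀ d ∈ D, ∀ x, X (U d x) = U d (X x)) →
    ∀ x ∈ K, X x ∈ K

theorem Loc.mono {D D' : Subgroup H} (h : D ≤ D') {K : Submodule ℂ (L2 (Unit × H))}
    (hK : Loc D K) : Loc D' K := fun X hX x hx => hK X (fun d hd => hX d (h hd)) x hx

theorem Loc.inf {D : Subgroup H} {K L : Submodule ℂ (L2 (Unit × H))}
    (hK : Loc D K) (hL : Loc D L) : Loc D (K ⊓ L) :=
  fun X hX x hx => ⟨hK X hX x hx.1, hL X hX x hx.2⟩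

theorem Loc.top {D : Subgroup H} : Loc D (⊤ : Submodule ℂ (L2 (Unit × H))) :=
  fun _ _ _ _ => trivial

theorem Loc.linv {D : Subgroup H} {K : Submodule ℂ (L2 (Unit × H))} (hK : Loc D K) : LInv K := by
  apply linv_of
  intro g x hx
  refine hK (Pool.Agent.W656.VA.lt Unit g) ?_ x hx
  intro d _ x
  ext ⟨⟨⟩, k⟩
  rw [U_apply, lt_apply, lt_apply, U_apply, mul_assoc]

theorem Loc.orth {D : Subgroup H} {K : Submodule ℂ (L2 (Unit × H))} (hK : Loc D K) :
    Loc D Kᗮ := by
  intro X hX x hx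
  rw [Submodule.mem_orthogonal] at hx ⊢
  intro w hw
  rw [← ContinuousLinearMap.adjoint_inner_left]
  refine hx _ (hK _ ?_ w hw)
  intro d hd y
  refine ext_inner_right ℂ fun z => ?_
  rw [ContinuousLinearMap.adjoint_inner_left, inner_U_left, inner_U_left,
    ContinuousLinearMap.adjoint_inner_left, hX _ (D.inv_mem hd)]

/-- an element commuting with `D` preserves `K` -/
theorem Loc.U_mem {D : Subgroup H} {K : Submodule ℂ (L2 (Unit × H))} (hK : Loc D K) {a : H}
    (ha : ∀ d ∈ D, a * d = d * a) {x : L2 (Unit × H)} (hx : x ∈ K) : U a x ∈ K := by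
  refine hK (U a) ?_ x hx
  intro d hd y
  rw [← U_mul, ← U_mul, ha d hd]

/-- the translate `U k K` -/
noncomputable def sh (k : H) (K : Submodule ℂ (L2 (Unit × H))) : Submodule ℂ (L2 (Unit × H)) :=
  K.comap (U k⁻¹ : L2 (Unit × H) →ₗ[ℂ] L2 (Unit × H))

theorem mem_sh {k : H} {K : Submodule ℂ (L2 (Unit × H))} {x : L2 (Unit × H)} :
    x ∈ sh k K ↔ U k⁻¹ x ∈ K := Iff.rfl

theorem isClosed_sh (k : H) {K : Submodule ℂ (L2 (Unit × H))}
    (hK : IsClosed (K : Set (L2 (Unit × H)))) : IsClosed (sh k K : Set (L2 (Unit × H))) :=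
  hK.preimage (U k⁻¹).continuous

theorem sh_orth (k : H) (K : Submodule ℂ (L2 (Unit × H))) : (sh k K)ᗮ = sh k Kᗮ := by
  ext x
  rw [mem_sh, Submodule.mem_orthogonal, Submodule.mem_orthogonal]
  constructor
  · intro h w hw
    rw [inner_U_right, inv_inv]
    apply h
    rw [mem_sh, U_inv_self]
    exact hw
  · intro h w hw
    rw [mem_sh] at hw
    have := h _ hw
    rwa [inner_U] at this

theorem sh_sh (a b : H) (K : Submodule ℂ (L2 (Unit × H))) : sh a (sh b K) = sh (a * b) K := by
  ext x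
  rw [mem_sh, mem_sh, mem_sh, ← U_mul, mul_inv_rev]

theorem U_mem_sh (a : H) {K : Submodule ℂ (L2 (Unit × H))} {x : L2 (Unit × H)} (hx : x ∈ K) :
    U a x ∈ sh a K := by
  rw [mem_sh, U_inv_self]
  exact hx

theorem linv_sh (k : H) {K : Submodule ℂ (L2 (Unit × H))} (hK : LInv K) : LInv (sh k K) := by
  apply linv_of
  intro g x hx
  rw [mem_sh] at hx ⊢
  rw [equi_lt (equi_U k⁻¹)]
  exact linv_lt hK g hx

theorem vdim_sh (k : H) {K : Submodule ℂ (L2 (Unit × H))}
    (hK : IsClosed (K : Set (L2 (Unit × H)))) (hKi : LInv K) : vdim (sh k K) = vdim K := by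
  apply le_antisymm
  · refine vdim_inj_le (isClosed_sh k hK) (linv_sh k hKi) (U k⁻¹) (equi_U _) hK
      (fun x hx => hx) ?_
    intro x _ h
    rw [← U_self_inv k x, h, map_zero]
  · refine vdim_inj_le hK hKi (U k) (equi_U _) (isClosed_sh k hK)
      (fun x hx => U_mem_sh k hx) ?_
    intro x _ h
    rw [← U_inv_self k x, h, map_zero]

theorem Loc.sh {D D' : Subgroup H} {K : Submodule ℂ (L2 (Unit × H))} (hK : Loc D K) (k : H)
    (hk : ∀ d ∈ D, k * d * k⁻¹ ∈ D') : Loc D' (sh k K) := by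
  intro X hX x hx
  rw [mem_sh] at hx ⊢
  have h := hK ((U k⁻¹).comp (X.comp (U k))) ?_ _ hx
  · simpa only [ContinuousLinearMap.comp_apply, U_self_inv] using h
  · intro d hd y
    simp only [ContinuousLinearMap.comp_apply]
    have e1 : U k (U d y) = U (k * d * k⁻¹) (U k y) := by
      rw [← U_mul, ← U_mul, inv_mul_cancel_right]
    have e2 : ∀ z, U k⁻¹ (U (k * d * k⁻¹) z) = U d (U k⁻¹ z) := by
      intro z
      rw [← U_mul, ← U_mul]
      congr 2
      group
    rw [e1, hX _ (hk d hd), e2]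

/-! ### the projection onto an affiliated subspace -/

theorem Loc.proj_comm {D : Subgroup H} {K : Submodule ℂ (L2 (Unit × H))} (hK : Loc D K)
    [K.HasOrthogonalProjection] (X : L2 (Unit × H) →L[ℂ] L2 (Unit × H))
    (hX : ∀ d ∈ D, ∀ x, X (U d x) = U d (X x)) (x : L2 (Unit × H)) :
    K.starProjection (X x) = X (K.starProjection x) := by
  apply Submodule.eq_starProjection_of_mem_orthogonal
  · exact hK X hX _ (Submodule.starProjection_apply_mem _ _)
  · rw [← map_sub]
    exact hK.orth X hX _ (Submodule.sub_starProjection_mem_orthogonal _)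

theorem Loc.proj_U {D : Subgroup H} {K : Submodule ℂ (L2 (Unit × H))} (hK : Loc D K)
    [K.HasOrthogonalProjection] {a : H} (ha : ∀ d ∈ D, a * d = d * a) (x : L2 (Unit × H)) :
    K.starProjection (U a x) = U a (K.starProjection x) := by
  refine hK.proj_comm (U a) ?_ x
  intro d hd y
  rw [← U_mul, ← U_mul, ha d hd]

/-- the projections onto subspaces affiliated with commuting subgroups preserve the subspaces -/
theorem Loc.proj_mem {D D' : Subgroup H} {K K' : Submodule ℂ (L2 (Unit × H))} (hK : Loc D K)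
    (hK' : Loc D' K') [K.HasOrthogonalProjection] (hc : ∀ d ∈ D, ∀ d' ∈ D', d * d' = d' * d)
    {x : L2 (Unit × H)} (hx : x ∈ K') : K.starProjection x ∈ K' := by
  refine hK' K.starProjection ?_ x hx
  intro d' hd' y
  exact hK.proj_U (fun d hd => (hc d hd d' hd').symm) y

/-- restriction to a subgroup -/
noncomputable def ind (D : Subgroup H) : L2 (Unit × H) →L[ℂ] L2 (Unit × H) :=
  (KP.push (Subtype.val : {p : Unit × H // p.2 ∈ D} → Unit × H) Subtype.val_injective).comp
    (KP.pull (Subtype.val : {p : Unit × H // p.2 ∈ D} → Unit × H) Subtype.val_injective)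

theorem ind_mem (D : Subgroup H) (x : L2 (Unit × H)) (p : Unit × H) (hp : p.2 ∈ D) :
    ind D x p = x p := by
  unfold ind
  rw [ContinuousLinearMap.comp_apply]
  exact pushL_apply (Subtype.val : {p : Unit × H // p.2 ∈ D} → Unit × H) Subtype.val_injective
    _ ⟨p, hp⟩

theorem ind_not_mem (D : Subgroup H) (x : L2 (Unit × H)) (p : Unit × H) (hp : p.2 ∉ D) :
    ind D x p = 0 := by
  unfold ind
  rw [ContinuousLinearMap.comp_apply]
  apply pushL_apply_ne (Subtype.val : {p : Unit × H // p.2 ∈ D} → Unit × H)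
    Subtype.val_injective
  rintro ⟨q, hq⟩ rfl
  exact hp hq

theorem ind_U (D : Subgroup H) {d : H} (hd : d ∈ D) (x : L2 (Unit × H)) :
    ind D (U d x) = U d (ind D x) := by
  ext ⟨⟨⟩, g⟩
  rw [U_apply]
  by_cases hg : g ∈ D
  · rw [ind_mem D _ _ hg, U_apply, ind_mem D _ _ (D.mul_mem hg hd)]
  · rw [ind_not_mem D _ _ hg, ind_not_mem D _ _ (fun h => hg ?_)]
    have := D.mul_mem h (D.inv_mem hd)
    simpa using this

theorem Loc.support {D : Subgroup H} {K : Submodule ℂ (L2 (Unit × H))} (hK : Loc D K)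
    [K.HasOrthogonalProjection] {g : H} (hg : g ∉ D) :
    K.starProjection (de ((), (1 : H))) ((), g) = 0 := by
  have h1 : ind D (de ((), (1 : H))) = de ((), (1 : H)) := by
    ext ⟨⟨⟩, k⟩
    by_cases hk : k ∈ D
    · rw [ind_mem D _ _ hk]
    · rw [ind_not_mem D _ _ hk, de_apply_ne]
      rintro h
      simp only [Prod.mk.injEq, true_and] at h
      rw [h] at hk
      exact hk D.one_mem
  have h2 := hK.proj_comm (ind D) (fun d hd x => ind_U D hd x) (de ((), (1 : H)))
  rw [h1] at h2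
  rw [h2, ind_not_mem D _ _ hg]

theorem vdim_unit (K : Submodule ℂ (L2 (Unit × H))) [K.HasOrthogonalProjection] :
    vdim K = ‖K.starProjection (de ((), (1 : H)))‖ ^ 2 := by
  rw [vdim_eq]
  simp

theorem proj_one (K : Submodule ℂ (L2 (Unit × H))) [K.HasOrthogonalProjection] :
    K.starProjection (de ((), (1 : H))) ((), 1) = (vdim K : ℂ) := by
  rw [vdim_unit, ← norm_sq_star, inner_de]

/-- **Independence.** -/
theorem vdim_indep {D D' : Subgroup H} {K K' : Submodule ℂ (L2 (Unit × H))}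
    (hKc : IsClosed (K : Set (L2 (Unit × H)))) (hK'c : IsClosed (K' : Set (L2 (Unit × H))))
    (hK : Loc D K) (hK' : Loc D' K') (hc : ∀ d ∈ D, ∀ d' ∈ D', d * d' = d' * d)
    (ht : ∀ d ∈ D, d ∈ D' → d = 1) : vdim (K ⊓ K') = vdim K * vdim K' := by
  have iK := hasProj hKc
  have iK' := hasProj hK'c
  have iI := hasProj (isClosed_inf hKc hK'c)
  set e : L2 (Unit × H) := de ((), (1 : H)) with he
  have h1 : (K ⊓ K').starProjection e = K.starProjection (K'.starProjection e) := by
    symm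
    apply Eq.symm
    apply Submodule.eq_starProjection_of_mem_of_inner_eq_zero
    · exact ⟨Submodule.starProjection_apply_mem _ _,
        hK.proj_mem hK' hc (Submodule.starProjection_apply_mem _ _)⟩
    · intro w hw
      rw [inner_sub_left, Submodule.inner_starProjection_left_eq_right,
        Submodule.starProjection_eq_self_iff.2 hw.1, Submodule.inner_starProjection_left_eq_right,
        Submodule.starProjection_eq_self_iff.2 hw.2, sub_self]
  have h2 : (vdim (K ⊓ K') : ℂ) = vdim K * vdim K' := by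
    rw [← proj_one, ← he, h1, ← inner_de, ← he, ← Submodule.inner_starProjection_left_eq_right,
      lp.inner_eq_tsum, tsum_eq_single ((), (1 : H))]
    · rw [← he] at *
      rw [proj_one K, proj_one K']
      simp
      ring
    · rintro ⟨⟨⟩, g⟩ hg
      have hg1 : g ≠ 1 := by
        rintro rfl
        exact hg rfl
      by_cases hgD : g ∈ D
      · rw [hK'.support (fun h => hg1 (ht g hgD h)), inner_zero_right]
      · rw [hK.support hgD, inner_zero_left]
  exact_mod_cast h2

end Pool.Agent.TH25.AD
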