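import Pool.Agent.H13.L.S8.TH25.AD.A2

/-!
The dimension of the solution space of the machine.
-/

set_option autoImplicit false
set_option linter.unusedSectionVars false

open scoped InnerProductSpace ENNReal
open Filter Topology

namespace Pool.Agent.TH25.AD

open Pool.Agent.W656.VA
open Pool.Agent.H80R2
open Pool.Agent.H80R2.BC (L2 GMat vdim IsTr LInv Equi act kerA Coef)
open Pool.Agent.H812R3

/-- a translation of infinite order has no fixed vectors -/
theorem fixed_zero {H : Type} [Group H] {c : H} (hc : ∀ k : ℕ, 0 < k → c ^ k ≠ 1)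
    {x : L2 (Unit × H)} (hx : U c x = x) : x = 0 := by
  have h1 : ∀ (k : ℕ) (g : H), x ((), g * c ^ k) = x ((), g) := by
    intro k
    induction k with
    | zero => intro g; simp
    | succ k ih =>
      intro g
      have h2 : x ((), g * c ^ k * c) = x ((), g * c ^ k) := by
        conv_rhs => rw [← hx]
        rw [U_apply]
      rw [pow_succ, ← mul_assoc, h2, ih]
  have hinj : Function.Injective (fun k : ℕ => c ^ k) := by
    intro a b hab
    simp only at hab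
    by_contra hne
    rcases lt_or_gt_of_ne hne with h | h
    · refine hc (b - a) (by omega) ?_
      have h3 : c ^ b = c ^ a * c ^ (b - a) := by rw [← pow_add]; congr 1; omega
      rw [h3] at hab
      exact (mul_eq_left.1 hab.symm)
    · refine hc (a - b) (by omega) ?_
      have h3 : c ^ a = c ^ b * c ^ (a - b) := by rw [← pow_add]; congr 1; omega
      rw [h3] at hab
      exact (mul_eq_left.1 hab)
  ext ⟨⟨⟩, g⟩
  have hinj2 : Function.Injective (fun k : ℕ => ((((), g * c ^ k)) : Unit × H)) := by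
    intro a b hab
    simp only [Prod.mk.injEq, mul_right_inj, true_and] at hab
    exact hinj hab
  have h4 := (KP.summable_sq x).comp_injective hinj2
  have h5 : ((fun y => ‖x y‖ ^ 2) ∘ fun k : ℕ => ((((), g * c ^ k)) : Unit × H))
      = fun _ => ‖x ((), g)‖ ^ 2 := by
    funext k
    simp only [Function.comp_apply]
    rw [h1]
  rw [h5, summable_const_iff] at h4
  have h6 := (pow_eq_zero_iff (n := 2) (by norm_num)).1 h4
  simpa using h6

namespace Mach

variable {H : Type} [Group H] (M : Mach H)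

theorem linv_P : LInv M.P := M.loc.linv

theorem closed_Z : IsClosed (M.Z : Set (L2 (Unit × H))) :=
  (isClosed_orth M.P).preimage
    (ContinuousLinearMap.id ℂ _ - U M.f : L2 (Unit × H) →L[ℂ] L2 (Unit × H)).continuous

theorem linv_Z : LInv M.Z := by
  apply linv_of
  intro g x hx
  rw [mem_Z] at hx ⊢
  rw [equi_lt (equi_U M.f), ← map_sub]
  exact linv_lt (linv_orth M.linv_P) g hx

theorem mem_Sol (x : L2 (Fin 4 × H)) : x ∈ M.Sol ↔ (∀ i, cj i x ∈ M.Z) ∧
    (cj 2 x - U M.g (cj 0 x) ∈ M.P ∧ cj 3 x - U M.g (cj 1 x) ∈ M.P) ∧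
    (U M.f (cj 1 x - U M.h (cj 0 x)) ∈ M.P ∧ U M.f (cj 3 x - U M.h (cj 2 x)) ∈ M.P) := Iff.rfl

theorem closed_Sol : IsClosed (M.Sol : Set (L2 (Fin 4 × H))) := by
  have h1 : IsClosed {x : L2 (Fin 4 × H) | ∀ i : Fin 4, cj i x ∈ M.Z} := by
    rw [Set.ofPred_forall]
    exact isClosed_iInter fun i => M.closed_Z.preimage (cj i).continuous
  have h2 : IsClosed {x : L2 (Fin 4 × H) | cj 2 x - U M.g (cj 0 x) ∈ M.P} :=
    M.closed.preimage ((cj 2).continuous.sub ((U M.g).continuous.comp (cj 0).continuous))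
  have h3 : IsClosed {x : L2 (Fin 4 × H) | cj 3 x - U M.g (cj 1 x) ∈ M.P} :=
    M.closed.preimage ((cj 3).continuous.sub ((U M.g).continuous.comp (cj 1).continuous))
  have h4 : IsClosed {x : L2 (Fin 4 × H) | U M.f (cj 1 x - U M.h (cj 0 x)) ∈ M.P} :=
    M.closed.preimage ((U M.f).continuous.comp
      ((cj 1).continuous.sub ((U M.h).continuous.comp (cj 0).continuous)))
  have h5 : IsClosed {x : L2 (Fin 4 × H) | U M.f (cj 3 x - U M.h (cj 2 x)) ∈ M.P} :=
    M.closed.preimage ((U M.f).continuous.comp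
      ((cj 3).continuous.sub ((U M.h).continuous.comp (cj 2).continuous)))
  exact h1.inter ((h2.inter h3).inter (h4.inter h5))

theorem linv_Sol : LInv M.Sol := by
  apply linv_of
  intro g x hx
  rw [mem_Sol] at hx ⊢
  obtain ⟨h1, ⟨h2, h3⟩, h4, h5⟩ := hx
  simp only [equi_lt (equi_cj _), equi_lt (equi_U _), ← map_sub]
  refine ⟨fun i => linv_lt M.linv_Z g (h1 i), ⟨linv_lt M.linv_P g h2, linv_lt M.linv_P g h3⟩,
    linv_lt M.linv_P g h4, linv_lt M.linv_P g h5⟩

noncomputable instance instProj (n : ℤ) : (M.lam n).HasOrthogonalProjection :=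
  hasProj (M.closed_lam n)

noncomputable instance instProj' (n : ℤ) : (M.lam n)ᗮ.HasOrthogonalProjection :=
  hasProj (isClosed_orth _)

/-- the value at the left end of the block -/
noncomputable def T : L2 (Fin 4 × H) →L[ℂ] L2 (Unit × H) :=
  ((M.lam (-1))ᗮ.starProjection).comp (cj 0)

theorem T_apply (x : L2 (Fin 4 × H)) : M.T x = (M.lam (-1))ᗮ.starProjection (cj 0 x) := rfl

theorem equi_T : Equi M.T :=
  equi_comp (equi_proj (linv_orth (M.loc_lam (-1)).linv)) (equi_cj 0)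

theorem T_mem (x : L2 (Fin 4 × H)) : M.T x ∈ (M.lam (-1))ᗮ :=
  Submodule.starProjection_apply_mem _ _

theorem inner_T {u : L2 (Unit × H)} (hu : u ∈ (M.lam (-1))ᗮ) (x : L2 (Fin 4 × H)) :
    ⟪u, M.T x⟫_ℂ = ⟪u, cj 0 x⟫_ℂ := by
  rw [T_apply, ← Submodule.inner_starProjection_left_eq_right,
    Submodule.starProjection_eq_self_iff.2 hu]

theorem mem_lam_neg_one {x : L2 (Unit × H)} (h : U M.f x ∈ M.P) : x ∈ M.lam (-1) := by
  unfold lam
  rw [mem_sh, zpow_neg_one, inv_inv]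
  exact h

theorem lam_neg_one_P {x : L2 (Unit × H)} (h : x ∈ M.lam (-1)) : U M.f x ∈ M.P := by
  unfold lam at h
  rw [mem_sh, zpow_neg_one, inv_inv] at h
  exact h

theorem T_inj (hα : M.α < 1) (x : L2 (Fin 4 × H)) (hx : x ∈ M.Sol) (h : M.T x = 0) : x = 0 := by
  obtain ⟨h1, ⟨h2, h3⟩, h4, h5⟩ := (M.mem_Sol x).1 hx
  have c0 : cj 0 x = 0 := by
    refine M.Z_left hα (h1 0) ?_
    rw [T_apply, Submodule.starProjection_apply_eq_zero_iff, Submodule.orthogonal_orthogonal] at h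
    exact h
  have c1 : cj 1 x = 0 := by
    refine M.Z_left hα (h1 1) (M.mem_lam_neg_one ?_)
    rwa [c0, map_zero, sub_zero] at h4
  have c2 : cj 2 x = 0 := by
    refine M.Z_right hα (h1 2) ?_
    rwa [c0, map_zero, sub_zero] at h2
  have c3 : cj 3 x = 0 := by
    refine M.Z_right hα (h1 3) ?_
    rwa [c1, map_zero, sub_zero] at h3
  apply ext_cj
  intro i
  rw [map_zero]
  fin_cases i
  · exact c0
  · exact c1
  · exact c2
  · exact c3

/-! ### blocks of a wrong length do not contribute -/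

theorem gn_inv_comm (n : ℤ) : ∀ d ∈ M.DI Set.univ, (M.gn n)⁻¹ * d = d * (M.gn n)⁻¹ :=
  M.comm_inv (M.gn_comm n)

theorem h_inv_comm : ∀ d ∈ M.DI Set.univ, (M.h)⁻¹ * d = d * (M.h)⁻¹ := M.comm_inv M.hc

/-- right end relation on a block -/
theorem right_rel {n : ℕ} {a b u : L2 (Unit × H)} (ha : a ∈ M.Z) (hb : b ∈ M.Z)
    (hab : b - U M.g a ∈ M.P) (hu : u ∈ M.Q n) : ⟪u, b⟫_ℂ = ⟪(U (M.gn n)⁻¹) u, a⟫_ℂ := by
  have hu' : U (M.gn n)⁻¹ u ∈ M.Q n := M.Q_U (M.gn_inv_comm n) hu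
  rw [M.steps_up hb n (fun i hi => M.Q_on hu hi), M.steps_up ha n (fun i hi => M.Q_on hu' hi)]
  rw [← M.lam_zero] at hab
  have h1 := M.mem_lam_shift (m := (n : ℤ)) hab
  rw [add_zero] at h1
  have h2 : ⟪u, U (M.f ^ (n : ℤ)) (b - U M.g a)⟫_ℂ = 0 :=
    Submodule.inner_left_of_mem_orthogonal h1 (M.Q_right hu)
  rw [map_sub, inner_sub_right, sub_eq_zero, U_gn, inner_U_right (M.gn n)] at h2
  exact h2

/-- left end relation on a block -/
theorem left_rel {n : ℕ} {a b u : L2 (Unit × H)}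
    (hab : U M.f (b - U M.h a) ∈ M.P) (hu : u ∈ M.Q n) : ⟪u, b⟫_ℂ = ⟪U (M.h)⁻¹ u, a⟫_ℂ := by
  have h1 := M.mem_lam_neg_one hab
  have h2 : ⟪u, b - U M.h a⟫_ℂ = 0 :=
    Submodule.inner_left_of_mem_orthogonal h1 (M.Q_left hu)
  rw [inner_sub_right, sub_eq_zero, inner_U_right] at h2
  exact h2

theorem bad_block {n : ℕ} (hc : ∀ k : ℕ, 0 < k → ((M.h * M.gn n)⁻¹ * (M.gn n * M.h)) ^ k ≠ 1)
    {x : L2 (Fin 4 × H)} (hx : x ∈ M.Sol) {u : L2 (Unit × H)} (hu : u ∈ M.Q n) :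
    ⟪u, cj 0 x⟫_ℂ = 0 := by
  obtain ⟨h1, ⟨h2, h3⟩, h4, h5⟩ := (M.mem_Sol x).1 hx
  -- the key identity
  have key : ∀ u ∈ M.Q n, ⟪U (M.gn n * M.h)⁻¹ u, cj 0 x⟫_ℂ = ⟪U (M.h * M.gn n)⁻¹ u, cj 0 x⟫_ℂ := by
    intro u hu
    have hu1 : U (M.gn n)⁻¹ u ∈ M.Q n := M.Q_U (M.gn_inv_comm n) hu
    have hu2 : U (M.h)⁻¹ u ∈ M.Q n := M.Q_U M.h_inv_comm hu
    have e1 := M.right_rel (h1 1) (h1 3) h3 hu
    rw [M.left_rel h4 hu1] at e1
    have e2 := M.left_rel h5 hu
    rw [M.right_rel (h1 0) (h1 2) h2 hu2] at e2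
    rw [mul_inv_rev, mul_inv_rev, U_mul, U_mul, ← e1, ← e2]
  have iQ := hasProj (M.closed_Q n)
  set q := (M.Q n).starProjection (cj 0 x) with hq
  have hqQ : q ∈ M.Q n := Submodule.starProjection_apply_mem _ _
  have hc1 : ∀ d ∈ M.DI Set.univ, (M.gn n * M.h) * d = d * (M.gn n * M.h) := by
    intro d hd
    rw [mul_assoc, M.hc d hd, ← mul_assoc, M.gn_comm n d hd, mul_assoc]
  have hc2 : ∀ d ∈ M.DI Set.univ, (M.h * M.gn n) * d = d * (M.h * M.gn n) := by
    intro d hd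
    rw [mul_assoc, M.gn_comm n d hd, ← mul_assoc, M.hc d hd, mul_assoc]
  have key2 : ∀ u ∈ M.Q n, ⟪u, U (M.gn n * M.h) q - U (M.h * M.gn n) q⟫_ℂ = 0 := by
    intro u hu
    have e3 : ∀ v ∈ M.Q n, ⟪v, q⟫_ℂ = ⟪v, cj 0 x⟫_ℂ := by
      intro v hv
      rw [hq, ← Submodule.inner_starProjection_left_eq_right,
        Submodule.starProjection_eq_self_iff.2 hv]
    rw [inner_sub_right, inner_U_right, inner_U_right, e3 _ (M.Q_U (M.comm_inv hc1) hu),
      e3 _ (M.Q_U (M.comm_inv hc2) hu), key u hu, sub_self]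
  have h6 : U (M.gn n * M.h) q - U (M.h * M.gn n) q = 0 :=
    inner_self_eq_zero.1 (key2 _ ((M.Q n).sub_mem (M.Q_U hc1 hqQ) (M.Q_U hc2 hqQ)))
  have h7 : U ((M.h * M.gn n)⁻¹ * (M.gn n * M.h)) q = q := by
    rw [U_mul, sub_eq_zero.1 h6, U_inv_self]
  have h8 : q = 0 := fixed_zero hc h7
  rw [← Submodule.starProjection_eq_self_iff.2 hu, Submodule.inner_starProjection_left_eq_right,
    ← hq, h8, inner_zero_right]

/-! ### blocks of a good length -/

/-- the block function with the value `x` at the left end -/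
noncomputable def blk (n : ℕ) (x : L2 (Unit × H)) : L2 (Unit × H) :=
  ∑ j ∈ Finset.range (n + 1), U (M.f ^ (-(j : ℤ))) x

theorem blk_mem_Z {n : ℕ} {x : L2 (Unit × H)} (hx : x ∈ M.Q n) : M.blk n x ∈ M.Z := by
  rw [mem_Z]
  have e : M.blk n x - U M.f (M.blk n x)
      = U (M.f ^ (-(n : ℤ))) x - U (M.f ^ (1 : ℤ)) x := by
    unfold blk
    rw [map_sum, ← Finset.sum_sub_distrib]
    have h1 := Finset.sum_range_sub (fun j : ℕ => U (M.f ^ (1 - (j : ℤ))) x) (n + 1)
    have e1 : (1 - ((n + 1 : ℕ) : ℤ)) = -(n : ℤ) := by push_cast; ring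
    have e0 : (1 - ((0 : ℕ) : ℤ)) = 1 := by simp
    simp only [e1, e0] at h1
    rw [← h1]
    refine Finset.sum_congr rfl fun j _ => ?_
    have e2 : (1 - ((j + 1 : ℕ) : ℤ)) = -(j : ℤ) := by push_cast; ring
    rw [e2, ← U_mul]
    congr 3
    rw [← zpow_one_add]
    congr 1
  rw [e, ← M.lam_zero]
  apply Submodule.sub_mem
  · have := M.mem_orth_shift (m := -(n : ℤ)) (M.Q_right hx)
    rwa [neg_add_cancel] at this
  · have := M.mem_orth_shift (m := (1 : ℤ)) (M.Q_left hx)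
    simpa using this

theorem blk_right {n : ℕ} {x x' : L2 (Unit × H)} (hx : x ∈ M.Q n) (hx' : x' ∈ M.Q n)
    (h : x' = U (M.gn n) x) : M.blk n x' - U M.g (M.blk n x) ∈ M.P := by
  unfold blk
  rw [map_sum, ← Finset.sum_sub_distrib]
  apply Submodule.sum_mem
  intro j hj
  have hj' : j ≤ n := by
    have := Finset.mem_range.1 hj
    omega
  rcases Nat.lt_or_eq_of_le hj' with hlt | rfl
  · rw [← M.lam_zero]
    have e1 : ∀ y ∈ M.Q n, U (M.f ^ (-(j : ℤ))) y ∈ M.lam 0 := by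
      intro y hy
      have := M.mem_lam_shift (m := -(j : ℤ)) (M.Q_on hy hlt)
      rwa [neg_add_cancel] at this
    exact Submodule.sub_mem _ (e1 _ hx') (M.lam_U M.gc (e1 _ hx))
  · have e2 : U (M.f ^ (-(j : ℤ))) x' = U M.g (U (M.f ^ (-(j : ℤ))) x) := by
      rw [h, ← U_mul, ← U_mul]
      congr 2
      unfold gn
      rw [zpow_neg]
      group
    rw [e2, sub_self]
    exact M.P.zero_mem

theorem blk_sub {n : ℕ} {x : L2 (Unit × H)} (hx : x ∈ M.Q n) : M.blk n x - x ∈ M.lam (-1) := by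
  unfold blk
  rw [Finset.sum_range_succ']
  have e0 : U (M.f ^ (-((0 : ℕ) : ℤ))) x = x := by
    rw [Nat.cast_zero, neg_zero, zpow_zero, U_one]
  rw [e0, add_sub_cancel_right]
  apply Submodule.sum_mem
  intro j hj
  have := M.mem_lam_shift (m := -((j + 1 : ℕ) : ℤ)) (M.Q_on hx (Finset.mem_range.1 hj))
  have e1 : -((j + 1 : ℕ) : ℤ) + (j : ℤ) = -1 := by push_cast; ring
  rwa [e1] at this

theorem blk_left {n : ℕ} {x x' : L2 (Unit × H)} (hx : x ∈ M.Q n) (hx' : x' ∈ M.Q n)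
    (h : x' = U M.h x) : U M.f (M.blk n x' - U M.h (M.blk n x)) ∈ M.P := by
  apply M.lam_neg_one_P
  have e : M.blk n x' - U M.h (M.blk n x) = (M.blk n x' - x') - U M.h (M.blk n x - x) := by
    rw [map_sub, h]
    abel
  rw [e]
  exact Submodule.sub_mem _ (M.blk_sub hx') (M.lam_U M.hc (M.blk_sub hx))

theorem good_block {n : ℕ} (hc : M.gn n * M.h = M.h * M.gn n) {x : L2 (Unit × H)}
    (hx : x ∈ M.Q n) : ∃ y ∈ M.Sol, M.T y = x := by
  set x1 := U M.h x with hx1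
  set x2 := U (M.gn n) x with hx2
  set x3 := U M.h x2 with hx3
  have h1 : x1 ∈ M.Q n := M.Q_U M.hc hx
  have h2 : x2 ∈ M.Q n := M.Q_U (M.gn_comm n) hx
  have h3 : x3 ∈ M.Q n := M.Q_U M.hc h2
  have h31 : x3 = U (M.gn n) x1 := by
    rw [hx3, hx2, hx1, ← U_mul, ← U_mul, hc]
  refine ⟨Pool.Agent.TH25.AD.mk (ι := Fin 4) ![M.blk n x, M.blk n x1, M.blk n x2, M.blk n x3], ?_, ?_⟩
  · rw [mem_Sol]
    simp only [cj_mk]
    refine ⟨?_, ⟨?_, ?_⟩, ?_, ?_⟩
    · intro i
      fin_cases i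
      · exact M.blk_mem_Z hx
      · exact M.blk_mem_Z h1
      · exact M.blk_mem_Z h2
      · exact M.blk_mem_Z h3
    · exact M.blk_right hx h2 hx2
    · exact M.blk_right h1 h3 h31
    · exact M.blk_left hx h1 hx1
    · exact M.blk_left h2 h3 hx3
  · rw [T_apply, cj_mk]
    symm
    apply Eq.symm
    apply Submodule.eq_starProjection_of_mem_orthogonal (M.Q_left hx)
    rw [Submodule.orthogonal_orthogonal]
    exact M.blk_sub hx

/-- **The dimension of the solution space.** -/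
theorem vdim_Sol (hα : M.α < 1) (S : Set ℕ) [DecidablePred (· ∈ S)]
    (h1 : ∀ n ∈ S, M.gn n * M.h = M.h * M.gn n)
    (h2 : ∀ n : ℕ, n ∉ S → ∀ k : ℕ, 0 < k → ((M.h * M.gn n)⁻¹ * (M.gn n * M.h)) ^ k ≠ 1) :
    HasSum (fun n : ℕ => if n ∈ S then (1 - M.α) ^ 2 * M.α ^ n else 0) (vdim M.Sol) := by
  set L := (M.Sol.map (M.T : L2 (Fin 4 × H) →ₗ[ℂ] L2 (Unit × H))).topologicalClosure with hL
  have hLc : IsClosed (L : Set (L2 (Unit × H))) := Submodule.isClosed_topologicalClosure _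
  have hv : vdim M.Sol = vdim L := by
    rw [vdim_rank M.closed_Sol M.linv_Sol M.T M.equi_T]
    have h3 : M.Sol ⊓ kr M.T = ⊥ := by
      rw [eq_bot_iff]
      rintro x ⟨hx, hx2⟩
      exact M.T_inj hα x hx ((mem_kr _ _).1 hx2)
    rw [h3, vdim_bot, zero_add]
  have hlo : ∀ n ∈ S, M.Q n ≤ L := by
    intro n hn x hx
    obtain ⟨y, hy, rfl⟩ := M.good_block (h1 n hn) hx
    exact Submodule.le_topologicalClosure _ ⟨y, hy, rfl⟩
  have hup : ∀ n, n ∉ S → M.Q n ≤ Lᗮ := by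
    intro n hn u hu
    rw [hL, Submodule.orthogonal_closure, Submodule.mem_orthogonal']
    rintro _ ⟨y, hy, rfl⟩
    show ⟪u, M.T y⟫_ℂ = 0
    rw [M.inner_T (M.Q_left hu)]
    exact M.bad_block (h2 n hn) hy hu
  have hLl : L ≤ (M.lam (-1))ᗮ := by
    apply Submodule.topologicalClosure_minimal _ _ (isClosed_orth _)
    rintro _ ⟨y, _, rfl⟩
    exact M.T_mem y
  have hQl : ∀ n, M.Q n ≤ (M.lam (-1))ᗮ := fun n u hu => M.Q_left hu
  have b1 : ∀ N : ℕ, ∑ n ∈ (Finset.range N).filter (· ∈ S), vdim (M.Q n) ≤ vdim L := by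
    intro N
    refine bessel _ _ (fun n _ => M.closed_Q n) (fun i _ j _ hij => M.Q_orth hij) L hLc ?_
    intro n hn
    exact hlo n (Finset.mem_filter.1 hn).2
  have b2 : ∀ N : ℕ, ∑ n ∈ (Finset.range N).filter (fun n => ¬ n ∈ S), vdim (M.Q n)
      ≤ (1 - M.α) - vdim L := by
    intro N
    have h4 : vdim ((M.lam (-1))ᗮ ⊓ Lᗮ) = (1 - M.α) - vdim L := by
      rw [vdim_diff hLc (isClosed_orth _) hLl, vdim_orth, M.vdim_lam]
      simp
    rw [← h4]
    refine bessel _ _ (fun n _ => M.closed_Q n) (fun i _ j _ hij => M.Q_orth hij) _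
      (isClosed_inf (isClosed_orth _) (isClosed_orth _)) ?_
    intro n hn
    exact le_inf (hQl n) (hup n (Finset.mem_filter.1 hn).2)
  have b3 : ∀ N : ℕ, ∑ n ∈ Finset.range N, vdim (M.Q n) = (1 - M.α) * (1 - M.α ^ N) := by
    intro N
    induction N with
    | zero => simp
    | succ N ih =>
      rw [Finset.sum_range_succ, ih, M.vdim_Q, pow_succ]
      ring
  have b4 : ∀ N : ℕ, ∑ n ∈ Finset.range N, (if n ∈ S then (1 - M.α) ^ 2 * M.α ^ n else 0)
      = ∑ n ∈ (Finset.range N).filter (· ∈ S), vdim (M.Q n) := by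
    intro N
    rw [Finset.sum_filter]
    refine Finset.sum_congr rfl fun n _ => ?_
    rw [M.vdim_Q]
  rw [hv, hasSum_iff_tendsto_nat_of_nonneg]
  · have hlim : Tendsto (fun N : ℕ => vdim L - (1 - M.α) * M.α ^ N) atTop (𝓝 (vdim L)) := by
      have := (tendsto_pow_atTop_nhds_zero_of_lt_one M.α_nonneg hα).const_mul (1 - M.α)
      rw [mul_zero] at this
      have := (tendsto_const_nhds (x := vdim L)).sub this
      rwa [sub_zero] at this
    refine tendsto_of_tendsto_of_tendsto_of_le_of_le hlim tendsto_const_nhds ?_ ?_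
    · intro N
      simp only
      have h5 := Finset.sum_filter_add_sum_filter_not (Finset.range N) (· ∈ S)
        (fun n => vdim (M.Q n))
      rw [b3] at h5
      rw [b4]
      have h6 := b2 N
      have h7 : (1 - M.α) * (1 - M.α ^ N) = (1 - M.α) - (1 - M.α) * M.α ^ N := by ring
      rw [h7] at h5
      linarith
    · intro N
      simp only
      rw [b4]
      exact b1 N
  · intro n
    split_ifs
    · exact mul_nonneg (sq_nonneg _) (pow_nonneg M.α_nonneg _)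
    · exact le_rfl

end Mach

end Pool.Agent.TH25.AD
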