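import Pool.Agent.H13.L.S8.TH25.AD.A4

/-!
Lamps given by matrices over the group ring; the solution space of the machine is defined over the
coefficient ring.
-/

set_option autoImplicit false
set_option linter.unusedSectionVars false

open scoped InnerProductSpace ENNReal ComplexConjugate
open Filter Topology

namespace Pool.Agent.TH25.AD

open Pool.Agent.W656.VA
open Pool.Agent.H80R2
open Pool.Agent.H80R2.BC (L2 GMat vdim IsTr LInv Equi act kerA Coef)
open Pool.Agent.H812R3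

section lamps

variable {ι κ H : Type} [Group H] [Fintype ι] [Fintype κ]

/-- the lamp subspace: the closure of the image of `ker A` under `T` -/
noncomputable def lampP (A : GMat κ ι H) (T : GMat Unit ι H) : Submodule ℂ (L2 (Unit × H)) :=
  ((kerA A).map (op T : L2 (ι × H) →ₗ[ℂ] L2 (Unit × H))).topologicalClosure

theorem closed_lampP (A : GMat κ ι H) (T : GMat Unit ι H) :
    IsClosed (lampP A T : Set (L2 (Unit × H))) := Submodule.isClosed_topologicalClosure _

theorem linv_lampP (A : GMat κ ι H) (T : GMat Unit ι H) : LInv (lampP A T) :=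
  linv_closure (linv_map (equi_op T) (linv_kerA A))

theorem vdim_lampP (A : GMat κ ι H) (T : GMat Unit ι H) (h : kerA A ⊓ kerA T = ⊥) :
    vdim (lampP A T) = vdim (kerA A) := by
  have h1 := vdim_rank (isClosed_kerA A) (linv_kerA A) (op T) (equi_op T)
  rw [← kerA_eq, h, vdim_bot, zero_add] at h1
  exact h1.symm

/-- the identity matrix of size one -/
noncomputable def idM (H : Type) [Group H] : GMat Unit Unit H := fun _ _ => Finsupp.single 1 1

theorem op_idM (x : L2 (Unit × H)) : op (idM H) x = x := by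
  ext ⟨⟨⟩, g⟩
  rw [op_apply]
  unfold act idM
  simp

theorem op_zero (x : L2 (ι × H)) : op (fun _ _ => 0 : GMat κ ι H) x = 0 := by
  ext ⟨k, g⟩
  rw [op_apply]
  unfold act
  simp

theorem dfn_lampP {R : Subring ℂ} {A : GMat κ ι H} {T : GMat Unit ι H} (hA : Coef R A)
    (hT : Coef R T) (h : kerA A ⊓ kerA T = ⊥) : Dfn R (lampP A T) 0 := by
  set B : GMat (Unit ⊕ κ) Unit H := BC.stack (idM H) (fun _ _ => 0) with hB
  set C : GMat (Unit ⊕ κ) ι H := BC.stack T A with hC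
  have hkC : kerA C = ⊥ := by
    rw [hC, kerA_stack, inf_comm, h]
  have hkC0 : vdim (kerA C) = 0 := by rw [hkC, vdim_bot]
  have h1 : lampP A T ≤ pre B C := by
    apply Submodule.topologicalClosure_minimal _ _ (closed_pre B C)
    rintro _ ⟨s, hs, rfl⟩
    rw [mem_pre]
    have e : op B (op T s) = op C s := by
      apply ext_pl
      · rw [hB, hC, pl1_stack, pl1_stack, op_idM]
      · rw [hB, hC, pl2_stack, pl2_stack, op_zero]
        have hs' : s ∈ kerA A := hs
        rw [kerA_eq, mem_kr] at hs'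
        exact hs'.symm
    show op B (op T s) ∈ clo (op C)
    rw [e]
    exact mem_clo _ _
  have h2 : vdim (kerA (sd B C)) ≤ vdim (kerA A) := by
    have key : ∀ x ∈ kerA (sd B C), pl1 Unit ι H x = op T (pl2 Unit ι H x) ∧
        op A (pl2 Unit ι H x) = 0 := by
      intro x hx
      rw [kerA_eq, mem_kr, op_sd, sub_eq_zero] at hx
      constructor
      · have := congrArg (pl1 Unit κ H) hx
        rwa [hB, hC, pl1_stack, pl1_stack, op_idM] at this
      · have := congrArg (pl2 Unit κ H) hx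
        rw [hB, hC, pl2_stack, pl2_stack, op_zero] at this
        exact this.symm
    refine vdim_inj_le (isClosed_kerA _) (linv_kerA _) (pl2 Unit ι H) equi_pl2 (isClosed_kerA A)
      ?_ ?_
    · intro x hx
      rw [kerA_eq, mem_kr]
      exact (key x hx).2
    · intro x hx h0
      apply ext_pl
      · rw [(key x hx).1, h0, map_zero, map_zero]
      · rw [h0, map_zero]
  rw [vdim_sd, hkC0, add_zero, ← vdim_lampP A T h] at h2
  have h3 := eq_of_vdim (closed_lampP A T) (linv_lampP A T) (closed_pre B C) (linv_pre B C) h1 h2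
  refine ⟨Unit ⊕ κ, ι, inferInstance, inferInstance, B, C, ?_, coef_stack hT hA, hkC0, ?_⟩
  · apply coef_stack
    · intro k i g
      exact coef_single _ _ R.one_mem _
    · intro k i g
      exact R.zero_mem
  · intro x
    rw [h3, mem_pre]

theorem dfn_lampP_orth {R : Subring ℂ} (hR : ∀ c ∈ R, conj c ∈ R) {A : GMat κ ι H}
    {T : GMat Unit ι H} (hA : Coef R A) (hT : Coef R T) :
    Dfn R (lampP A T)ᗮ (Fintype.card κ - Fintype.card ι + vdim (kerA A)) := by
  refine ⟨ι, κ, inferInstance, inferInstance, st T, st A, coef_st hR hT, coef_st hR hA, ?_, ?_⟩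
  · have h := vdim_ker_adjoint (op A) (equi_op A)
    rw [← op_st, ← kerA_eq, ← kerA_eq] at h
    linarith
  · intro y
    rw [op_st, op_st]
    have h1 : clo (ContinuousLinearMap.adjoint (op A)) = (kerA A)ᗮ := by
      rw [kerA_eq]
      exact (ContinuousLinearMap.orthogonal_ker (op A)).symm
    rw [h1, lampP, Submodule.orthogonal_closure, Submodule.mem_orthogonal,
      Submodule.mem_orthogonal]
    constructor
    · intro h s hs
      rw [ContinuousLinearMap.adjoint_inner_right]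
      exact h _ ⟨s, hs, rfl⟩
    · rintro h _ ⟨s, hs, rfl⟩
      have := h s hs
      rw [ContinuousLinearMap.adjoint_inner_right] at this
      exact this

theorem cj_op (A : GMat κ ι H) (k : κ) (s : L2 (ι × H)) :
    cj k (op A s) = ∑ i, (A k i).sum fun h c => c • U h (cj i s) := by
  ext ⟨⟨⟩, g⟩
  rw [cj_apply, op_apply, lp.coeFn_sum, Finset.sum_apply]
  unfold act
  refine Finset.sum_congr rfl fun i _ => ?_
  rw [Finsupp.sum, Finsupp.sum, lp.coeFn_sum, Finset.sum_apply]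
  refine Finset.sum_congr rfl fun h _ => ?_
  rw [lp.coeFn_smul, Pi.smul_apply, U_apply, cj_apply, smul_eq_mul]

theorem cj_op_amp (D : Subgroup H) (A : GMat κ ι H) (hA : ∀ k i, ∀ h ∈ (A k i).support, h ∈ D)
    (X : L2 (Unit × H) →L[ℂ] L2 (Unit × H)) (hX : ∀ d ∈ D, ∀ x, X (U d x) = U d (X x))
    (s : L2 (ι × H)) (k : κ) :
    cj k (op A (mk fun i => X (cj i s))) = X (cj k (op A s)) := by
  rw [cj_op, cj_op, map_sum]
  refine Finset.sum_congr rfl fun i _ => ?_
  rw [Finsupp.sum, Finsupp.sum, map_sum]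
  refine Finset.sum_congr rfl fun h hh => ?_
  rw [map_smul, hX h (hA k i h hh), cj_mk]

theorem loc_lampP (D : Subgroup H) {A : GMat κ ι H} {T : GMat Unit ι H}
    (hA : ∀ k i, ∀ h ∈ (A k i).support, h ∈ D) (hT : ∀ k i, ∀ h ∈ (T k i).support, h ∈ D) :
    Loc D (lampP A T) := by
  intro X hX x hx
  have h1 : lampP A T ≤ (lampP A T).comap (X : L2 (Unit × H) →ₗ[ℂ] L2 (Unit × H)) := by
    apply Submodule.topologicalClosure_minimal _ _ ((closed_lampP A T).preimage X.continuous)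
    rintro _ ⟨s, hs, rfl⟩
    have hs' : s ∈ kerA A := hs
    rw [kerA_eq, mem_kr] at hs'
    have e : X (op T s) = op T (mk fun i => X (cj i s)) := by
      apply ext_cj
      intro k
      rw [cj_op_amp D T hT X hX]
      have e2 : ∀ y : L2 (Unit × H), cj (k : Unit) y = y := by
        intro y
        ext ⟨⟨⟩, g⟩
        rw [cj_apply]
      rw [e2, e2]
    show X (op T s) ∈ lampP A T
    rw [e]
    apply Submodule.le_topologicalClosure
    refine ⟨_, ?_, rfl⟩
    show (mk fun i => X (cj i s)) ∈ kerA A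
    rw [kerA_eq, mem_kr]
    apply ext_cj
    intro k
    rw [cj_op_amp D A hA X hX, hs', map_zero, map_zero]
  exact h1 hx

end lamps

section sol

variable {H : Type} [Group H]

/-- the row `x ↦ U h x_i` -/
noncomputable def rw1 (i : Fin 4) (h : H) : GMat Unit (Fin 4) H :=
  fun _ k => if k = i then Finsupp.single h 1 else 0

theorem act_rw1 (i : Fin 4) (h : H) (x : Fin 4 × H → ℂ) (g : H) :
    act (rw1 i h) x () g = x (i, g * h) := by
  unfold act rw1
  rw [Finset.sum_eq_single i]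
  · rw [if_pos rfl, Finsupp.sum_single_index (by simp), one_mul]
  · intro j _ hj
    rw [if_neg hj]
    simp
  · intro h
    exact absurd (Finset.mem_univ _) h

/-- the row `x ↦ U a x_i - U b x_j` -/
noncomputable def rw2 (i j : Fin 4) (a b : H) : GMat Unit (Fin 4) H :=
  fun u k => rw1 i a u k - rw1 j b u k

theorem op_rw2 (i j : Fin 4) (a b : H) (x : L2 (Fin 4 × H)) :
    op (rw2 i j a b) x = U a (cj i x) - U b (cj j x) := by
  ext ⟨⟨⟩, g⟩
  rw [op_apply, lp.coeFn_sub, Pi.sub_apply, U_apply, U_apply, cj_apply, cj_apply,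
    ← act_rw1 i a x g, ← act_rw1 j b x g]
  unfold act rw2
  rw [← Finset.sum_sub_distrib]
  refine Finset.sum_congr rfl fun k _ => ?_
  rw [Finsupp.sum_sub_index]
  intro h b1 b2
  ring

theorem coef_rw2 {R : Subring ℂ} (i j : Fin 4) (a b : H) : Coef R (rw2 i j a b) := by
  intro u k h
  unfold rw2 rw1
  rw [Finsupp.sub_apply]
  apply R.sub_mem
  · split_ifs
    · exact coef_single _ _ R.one_mem _
    · exact R.zero_mem
  · split_ifs
    · exact coef_single _ _ R.one_mem _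
    · exact R.zero_mem

theorem Mach.dfn_Sol (M : Mach H) {R : Subring ℂ} {d : ℝ} (hP : Dfn R M.P 0)
    (hN : Dfn R M.Pᗮ d) : Dfn R M.Sol (4 * d) := by
  have hZ : ∀ i : Fin 4, Dfn R ((M.Pᗮ).comap
      (op (rw2 i i 1 M.f) : L2 (Fin 4 × H) →ₗ[ℂ] L2 (Unit × H))) d :=
    fun i => hN.comap (coef_rw2 _ _ _ _)
  have h1 : Dfn R ((M.P).comap
      (op (rw2 2 0 1 M.g) : L2 (Fin 4 × H) →ₗ[ℂ] L2 (Unit × H))) 0 := hP.comap (coef_rw2 _ _ _ _)
  have h2 : Dfn R ((M.P).comap
      (op (rw2 3 1 1 M.g) : L2 (Fin 4 × H) →ₗ[ℂ] L2 (Unit × H))) 0 := hP.comap (coef_rw2 _ _ _ _)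
  have h3 : Dfn R ((M.P).comap
      (op (rw2 1 0 M.f (M.f * M.h)) : L2 (Fin 4 × H) →ₗ[ℂ] L2 (Unit × H))) 0 :=
    hP.comap (coef_rw2 _ _ _ _)
  have h4 : Dfn R ((M.P).comap
      (op (rw2 3 2 M.f (M.f * M.h)) : L2 (Fin 4 × H) →ₗ[ℂ] L2 (Unit × H))) 0 :=
    hP.comap (coef_rw2 _ _ _ _)
  have h5 := ((((hZ 0).inf (hZ 1)).inf (hZ 2)).inf (hZ 3)).inf ((h1.inf h2).inf (h3.inf h4))
  have e1 : d + d + d + d + (0 + 0 + (0 + 0)) = 4 * d := by ring
  rw [e1] at h5
  have e2 : M.Sol = ((((M.Pᗮ).comap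
      (op (rw2 0 0 1 M.f) : L2 (Fin 4 × H) →ₗ[ℂ] L2 (Unit × H)) ⊓ (M.Pᗮ).comap
      (op (rw2 1 1 1 M.f) : L2 (Fin 4 × H) →ₗ[ℂ] L2 (Unit × H))) ⊓ (M.Pᗮ).comap
      (op (rw2 2 2 1 M.f) : L2 (Fin 4 × H) →ₗ[ℂ] L2 (Unit × H))) ⊓ (M.Pᗮ).comap
      (op (rw2 3 3 1 M.f) : L2 (Fin 4 × H) →ₗ[ℂ] L2 (Unit × H))) ⊓ (((M.P).comap
      (op (rw2 2 0 1 M.g) : L2 (Fin 4 × H) →ₗ[ℂ] L2 (Unit × H)) ⊓ (M.P).comap
      (op (rw2 3 1 1 M.g) : L2 (Fin 4 × H) →ₗ[ℂ] L2 (Unit × H))) ⊓ ((M.P).comap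
      (op (rw2 1 0 M.f (M.f * M.h)) : L2 (Fin 4 × H) →ₗ[ℂ] L2 (Unit × H)) ⊓ (M.P).comap
      (op (rw2 3 2 M.f (M.f * M.h)) : L2 (Fin 4 × H) →ₗ[ℂ] L2 (Unit × H)))) := by
    ext x
    simp only [Submodule.mem_inf, Submodule.mem_comap, ContinuousLinearMap.coe_coe, op_rw2,
      U_one, U_mul, ← map_sub]
    rw [M.mem_Sol]
    have hz : ∀ i, (cj i x ∈ M.Z ↔ cj i x - U M.f (cj i x) ∈ M.Pᗮ) := fun i => Iff.rfl
    constructor
    · rintro ⟨k1, ⟨k2, k3⟩, k4, k5⟩
      exact ⟨⟨⟨⟨k1 0, k1 1⟩, k1 2⟩, k1 3⟩, ⟨k2, k3⟩, k4, k5⟩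
    · rintro ⟨⟨⟨⟨a0, a1⟩, a2⟩, a3⟩, ⟨k2, k3⟩, k4, k5⟩
      refine ⟨?_, ⟨k2, k3⟩, k4, k5⟩
      intro i
      fin_cases i
      · exact a0
      · exact a1
      · exact a2
      · exact a3
  rw [e2]
  exact h5

end sol

end Pool.Agent.TH25.AD
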