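import Pool.Agent.H13.L.S8.TH25.AD.A6
import Pool.Agent.H13.L.S8.W656.VB1

/-!
The values produced by the machine.
-/

set_option autoImplicit false
set_option linter.unusedSectionVars false

open scoped InnerProductSpace ENNReal ComplexConjugate
open Filter Topology

namespace Pool.Agent.TH25.AD

open Pool.Agent.W656.VA
open Pool.Agent.H80R2
open Pool.Agent.H80R2.BC (L2 GMat vdim IsTr LInv Equi act kerA pt vals Coef)
open Pool.Agent.H812R3

/-- a matrix with a kernel of dimension `v < 1` and a row which is injective on the kernel -/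
theorem lamp_exists {R : Subring ℂ} {G : Type} [Group G] {v : ℝ} (hv : Val R G v) (h1 : v < 1) :
    ∃ (m : ℕ) (ι κ : Type) (_ : Fintype ι) (_ : Fintype κ)
      (A : GMat κ ι (Monoid.Coprod G (FreeGroup (Fin m))))
      (T : GMat Unit ι (Monoid.Coprod G (FreeGroup (Fin m)))),
      Coef R A ∧ Coef R T ∧ kerA A ⊓ kerA T = ⊥ ∧ vdim (kerA A) = v := by
  obtain ⟨m, n, A, hA, rfl⟩ := hv
  set A' : GMat (Fin n) (Fin m × Unit) G := ri (Equiv.refl _) (Equiv.prodPUnit (Fin m)) A with hA'
  have hAc : Coef R A' := fun k i h => hA _ _ _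
  have hAv : vdim (kerA A') = vdim (kerA A) := vdim_ri _ _ A
  set e : Fin m × Fin 1 ≃ Fin (m * 1) := finProdFinEquiv with he
  have hgen := BC.generic_coprod G (m * 1) e
  set inc : G →* Monoid.Coprod G (FreeGroup (Fin (m * 1))) := Monoid.Coprod.inl with hinc
  set u : Fin m → Fin 1 → Monoid.Coprod G (FreeGroup (Fin (m * 1))) := fun p q =>
    (Monoid.Coprod.inr : FreeGroup (Fin (m * 1)) →* Monoid.Coprod G (FreeGroup (Fin (m * 1))))
        (FreeGroup.of (e (p, q))) with hu
  have hinj : Function.Injective inc := Monoid.Coprod.inl_injective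
  have h2 := cut_eq inc hinj u hgen A'
  set Z := kerA (BC.Cut inc u A') with hZdef
  set Φ := vals Z with hΦ
  have h4 : Module.finrank ℂ Φ ≤ 1 := by
    have := Submodule.finrank_le Φ
    rwa [Module.finrank_fintype_fun_eq_card, Fintype.card_unit] at this
  have h5 : fd A' Φ ≤ vdim (kerA A) := by
    rw [← hAv]
    exact vdim_mono inf_le_left
  have hZ : Z = ⊥ := by
    apply eq_bot_of_vdim (isClosed_kerA _) (linv_kerA _)
    rw [h2]
    rcases Nat.le_one_iff_eq_zero_or_eq_one.1 h4 with h6 | h6
    · rw [Submodule.finrank_eq_zero.1 h6, fd_bot]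
      simp
    · rw [h6]
      simp only [Fintype.card_fin, Nat.cast_one, mul_one]
      linarith
  refine ⟨m * 1, Fin m × Unit, Fin n, inferInstance, inferInstance, BC.push inc A',
    fun _ p => BC.Th u (0, ()) p, coef_push _ _ hAc, ?_, ?_, ?_⟩
  · intro k i h
    exact coef_Th (R := R) u (0, ()) i h
  · rw [← hZ, hZdef]
    unfold BC.Cut
    rw [kerA_stack]
    congr 1
    ext x
    rw [mem_kerA, mem_kerA]
    constructor
    · rintro h ⟨q, i⟩ g
      have hq : q = 0 := Subsingleton.elim _ _
      subst hq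
      exact h () g
    · rintro h k g
      exact h (0, ()) g
  · rw [vdim_push inc hinj, hAv]

theorem push_stack {ι κ κ' G G' : Type} (f : G → G') (A : GMat κ ι G) (B : GMat κ' ι G) :
    BC.push f (BC.stack A B) = BC.stack (BC.push f A) (BC.push f B) := by
  funext k
  cases k <;> rfl

/-- **The values of the machine.** -/
theorem value {R : Subring ℂ} (hR : ∀ c ∈ R, conj c ∈ R) {G : Type} [Group G] (hG : TF G)
    {ι κ : Type} [Fintype ι] [Fintype κ] (A : GMat κ ι G) (T : GMat Unit ι G) (hA : Coef R A)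
    (hT : Coef R T) (h : kerA A ⊓ kerA T = ⊥) (h1 : vdim (kerA A) < 1) (S : Set ℕ)
    [DecidablePred (· ∈ S)] :
    ∃ w : ℝ, HasSum (fun n : ℕ => if n ∈ S then (1 - vdim (kerA A)) ^ 2 * vdim (kerA A) ^ n else 0)
        w ∧ Val R (Hg G) (w + 4 * (Fintype.card κ - Fintype.card ι + vdim (kerA A))) := by
  set A2 := BC.push (inc G) A with hA2
  set T2 := BC.push (inc G) T with hT2
  have hv : vdim (kerA A2) = vdim (kerA A) := vdim_push (inc G) inc_inj A
  have hbot : kerA A2 ⊓ kerA T2 = ⊥ := by
    rw [hA2, hT2, ← kerA_stack, ← push_stack]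
    apply eq_bot_of_vdim (isClosed_kerA _) (linv_kerA _)
    rw [vdim_push (inc G) inc_inj, kerA_stack, h, vdim_bot]
  have hsupp : ∀ (a : G →₀ ℂ), ∀ x ∈ (a.mapDomain (inc G)).support, x ∈ DIg G {0} := by
    classical
    intro a x hx
    have := Finsupp.mapDomain_support hx
    rw [Finset.mem_image] at this
    obtain ⟨y, _, rfl⟩ := this
    exact inc_mem y
  have hloc : Loc (DIg G {0}) (lampP A2 T2) :=
    loc_lampP _ (fun k i x hx => hsupp _ x hx) (fun k i x hx => hsupp _ x hx)
  set M := mach G S (lampP A2 T2) (closed_lampP A2 T2) hloc with hM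
  have hα : M.α = vdim (kerA A) := by
    rw [← hv]
    exact vdim_lampP A2 T2 hbot
  have hc1 := coef_push (inc G) A hA
  have hc2 := coef_push (inc G) T hT
  have d1 : Dfn R M.P 0 := dfn_lampP hc1 hc2 hbot
  have d2 : Dfn R M.Pᗮ (Fintype.card κ - Fintype.card ι + vdim (kerA A2)) :=
    dfn_lampP_orth hR hc1 hc2
  have d3 := (M.dfn_Sol d1 d2).val
  have h3 := M.vdim_Sol (by rw [hα]; exact h1) S
    (fun n hn => mach_good S _ (closed_lampP A2 T2) hloc n hn) (by
      intro n hn k hk hc
      refine mach_bad S _ (closed_lampP A2 T2) hloc n hn ?_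
      have h4 := tf_Hg hG _ k hk hc
      have h5 := inv_mul_eq_one.1 h4
      exact h5.symm)
  rw [hα] at h3
  rw [hv] at d3
  exact ⟨vdim M.Sol, h3, d3⟩

/-- restriction to a finitely generated subgroup -/
theorem fg_val_sub {R : Subring ℂ} {H : Type} [Group H] {w : ℝ} (hv : Val R H w) :
    ∃ K : Subgroup H, Group.FG K ∧ Val R K w := by
  classical
  obtain ⟨m, n, A, hA, rfl⟩ := hv
  set s : Finset H := Finset.univ.biUnion fun k : Fin n =>
    Finset.univ.biUnion fun i : Fin m => (A k i).support with hs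
  set K := Subgroup.closure (s : Set H) with hK
  have hsub : ∀ k i x, x ∈ (A k i).support → x ∈ K := by
    intro k i x hx
    apply Subgroup.subset_closure
    rw [hs, Finset.mem_coe, Finset.mem_biUnion]
    refine ⟨k, Finset.mem_univ _, ?_⟩
    rw [Finset.mem_biUnion]
    exact ⟨i, Finset.mem_univ _, hx⟩
  set A0 : GMat (Fin n) (Fin m) K := fun k i =>
    (A k i).comapDomain (Subtype.val : K → H) Subtype.val_injective.injOn with hA0
  have hp : BC.push (K.subtype : K → H) A0 = A := by
    funext k i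
    show Finsupp.mapDomain (Subtype.val : K → H)
      ((A k i).comapDomain (Subtype.val : K → H) Subtype.val_injective.injOn) = A k i
    apply Finsupp.mapDomain_comapDomain _ Subtype.val_injective
    intro x hx
    exact ⟨⟨x, hsub k i x hx⟩, rfl⟩
  refine ⟨K, Group.closure_finset_fg s, m, n, A0, ?_, ?_⟩
  · intro k i h
    exact hA k i h
  · rw [← vdim_push K.subtype K.subtype_injective A0, hp]

end Pool.Agent.TH25.AD
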